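-- Removed from the hand-ins of MP_2a0850_gt by decision of the lead (limit of four files).
import Pool.Agent.Results.MP_cb9bff_gt.ConeMonotone

/-!
# MP_2a0850_gt: cone monotone homotopy equivalences of closed manifolds

The Borel conjecture says that every homotopy equivalence between closed aspherical manifolds is
homotopic to a homeomorphism. The theorem proves this for all homotopy equivalences (of closed
smooth manifolds, aspherical or not, of every dimension) which are *cone monotone*: in suitable
smooth coordinates around `x` and `f x` every direction `v` has a cone of directions around it in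
which the increments of `f` lie in a proper convex cone. Differentiability, a Lipschitz condition or
injectivity are not required. The homeomorphism can be chosen to be a diffeomorphism, and the
homotopy inside any given neighbourhood of the graph of `f`. The condition is necessary for smooth
rigidity: a homotopy equivalence is homotopic to a diffeomorphism if and only if it is homotopic to
a cone monotone map. For example a homeomorphism from an exotic torus to the standard torus is not
homotopic to a cone monotone map, in particular it is not cone monotone itself.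

The analytic part is due to helper66 (`Pool/Agent/Y66/CM/`, on top of projects of helper522 and
helper521).
-/

set_option autoImplicit false

open Set Filter Topology Metric Function
open scoped Manifold ContDiff

noncomputable section

namespace Pool.Agent.Results.MP_2a0850_gt.ConeMonotoneEquivalences

open Pool.Agent.Results.MP_cb9bff_gt.ConeMonotone (ConeMonotoneAt coneMonotoneAt_of_localDiffeo)

/-- Let `M` and `N` be closed smooth `n`-manifolds, `M` connected, and let `h : M → N` be a homotopy
equivalence.

(1) If `h` is cone monotone at every point, then for every open set `O` which contains the graph of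
`h` there is a diffeomorphism `Φ : M → N` homotopic to `h` by a homotopy with graphs in `O`.

(2) `h` is homotopic to a diffeomorphism if and only if it is homotopic to a map which is cone
monotone at every point. -/
theorem result (n : ℕ) (M N : Type)
    [TopologicalSpace M] [T2Space M] [CompactSpace M] [ConnectedSpace M]
    [ChartedSpace (EuclideanSpace ℝ (Fin n)) M] [IsManifold (𝓡 n) ∞ M]
    [TopologicalSpace N] [T2Space N] [CompactSpace N]
    [ChartedSpace (EuclideanSpace ℝ (Fin n)) N] [IsManifold (𝓡 n) ∞ N]
    (h : ContinuousMap.HomotopyEquiv M N) :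
    ((∀ x, ConeMonotoneAt n h.toFun x) →
      ∀ O : Set (M × N), IsOpen O → (∀ x, (x, h.toFun x) ∈ O) →
        ∃ (Φ : M ≃ₘ^∞⟮𝓡 n, 𝓡 n⟯ N) (f : C(M, N)), ⇑Φ = ⇑f ∧
          ContinuousMap.HomotopicWith h.toFun f (fun g => ∀ x, (x, g x) ∈ O)) ∧
    ((∃ (Φ : M ≃ₘ^∞⟮𝓡 n, 𝓡 n⟯ N) (f : C(M, N)), ⇑Φ = ⇑f ∧ h.toFun.Homotopic f) ↔
      ∃ f : C(M, N), h.toFun.Homotopic f ∧ ∀ x, ConeMonotoneAt n f x) := by
  have hmain := (Pool.Agent.Results.MP_cb9bff_gt.ConeMonotone.result n M N).1
  refine ⟨fun hc O hO hg => ?_, ?_, ?_⟩
  · obtain ⟨f', hf', -, hf''⟩ := hmain h.toFun hc O hO hg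
    obtain ⟨Φ, hΦ⟩ := hf'' inferInstance (Or.inr ⟨h.invFun, h.right_inv⟩)
    exact ⟨Φ, f', hΦ, hf'⟩
  · rintro ⟨Φ, f, hΦ, hf⟩
    refine ⟨f, hf, fun x => ?_⟩
    rw [← hΦ]
    exact coneMonotoneAt_of_localDiffeo n Φ x (Φ.isLocalDiffeomorph x)
  · rintro ⟨f, hf, hc⟩
    obtain ⟨f', hf', -, hf''⟩ := hmain f hc univ isOpen_univ (fun x => mem_univ _)
    have hinv : (f.comp h.invFun).Homotopic (ContinuousMap.id N) :=
      (ContinuousMap.Homotopic.comp hf.symm (ContinuousMap.Homotopic.refl h.invFun)).trans
        h.right_inv
    obtain ⟨Φ, hΦ⟩ := hf'' inferInstance (Or.inr ⟨h.invFun, hinv⟩)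
    obtain ⟨F⟩ := hf'
    exact ⟨Φ, f', hΦ, hf.trans ⟨F.toHomotopy⟩⟩

end Pool.Agent.Results.MP_2a0850_gt.ConeMonotoneEquivalences
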